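import Pool.Agent.U280.OD.Stm

set_option autoImplicit false

/-! Project OD, package A2. -/

open MeasureTheory Set Filter Topology

namespace Pool.Agent.U460.OD

open Pool.Agent.U280.OD

/-- `sqrt (1 - 1/t)` -/
noncomputable def w (t : ℝ) : ℝ := Real.sqrt (1 - 1 / t)

noncomputable def F (t : ℝ) : ℝ := 2 / (1 + w t) + 2 * Real.log (1 + w t)

theorem w_nonneg (t : ℝ) : 0 ≤ w t := Real.sqrt_nonneg _

theorem hasDerivAt_F {t : ℝ} (ht : 1 < t) : HasDerivAt F ((1 - w t) ^ 2) t := by
  have ht0 : t ≠ 0 := by positivity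
  have h1t : 0 < 1 - 1 / t := by
    rw [sub_pos, div_lt_one (by positivity)]
    exact ht
  have hw : 0 < w t := Real.sqrt_pos.2 h1t
  have hw2 : w t ^ 2 = 1 - 1 / t := Real.sq_sqrt h1t.le
  have d1 : HasDerivAt (fun t : ℝ => 1 - 1 / t) (1 / t ^ 2) t := by
    have h := (hasDerivAt_inv ht0).const_sub 1
    simp only [one_div]
    refine h.congr_deriv ?_
    rw [neg_neg]
  have d2 : HasDerivAt w (1 / t ^ 2 / (2 * w t)) t := d1.sqrt h1t.ne'
  have d3 : HasDerivAt (fun t => 1 + w t) (1 / t ^ 2 / (2 * w t)) t := d2.const_add 1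
  have hne : (1 + w t) ≠ 0 := by positivity
  have d4 := (d3.inv hne).const_mul 2
  have d5 := (d3.log hne).const_mul 2
  have d6 := d4.add d5
  have hti : 1 / t = 1 - w t ^ 2 := by rw [hw2]; ring
  have hti2 : 1 / t ^ 2 = (1 - w t ^ 2) ^ 2 := by rw [← hti]; ring
  rw [hti2] at d6
  have hF : F = fun t => 2 * (1 + w t)⁻¹ + 2 * Real.log (1 + w t) := by
    funext x
    simp only [F, div_eq_mul_inv]
  rw [hF]
  refine d6.congr_deriv ?_
  field_simp
  ring

theorem tendsto_w : Tendsto w atTop (𝓝 1) := by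
  have h0 : Tendsto (fun t : ℝ => 1 / t) atTop (𝓝 0) := by
    simpa only [one_div] using (tendsto_inv_atTop_zero (𝕜 := ℝ))
  have h : Tendsto (fun t : ℝ => 1 - 1 / t) atTop (𝓝 (1 - 0)) :=
    tendsto_const_nhds.sub h0
  rw [sub_zero] at h
  have := (Real.continuous_sqrt.tendsto 1).comp h
  rw [Real.sqrt_one] at this
  exact this

theorem tendsto_F : Tendsto F atTop (𝓝 (1 + 2 * Real.log 2)) := by
  have h1 : Tendsto (fun t => 1 + w t) atTop (𝓝 (1 + 1)) := tendsto_const_nhds.add tendsto_w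
  have h2 : Tendsto (fun t => 2 / (1 + w t)) atTop (𝓝 (2 / (1 + 1))) :=
    tendsto_const_nhds.div h1 (by norm_num)
  have h3 : Tendsto (fun t => Real.log (1 + w t)) atTop (𝓝 (Real.log (1 + 1))) :=
    h1.log (by norm_num)
  have h4 := h2.add (h3.const_mul 2)
  norm_num at h4
  exact h4

theorem cont_F : ContinuousWithinAt F (Ici 1) 1 := by
  apply ContinuousAt.continuousWithinAt
  have h1 : ContinuousAt w 1 := by
    apply ContinuousAt.sqrt
    exact continuousAt_const.sub (continuousAt_const.div continuousAt_id one_ne_zero)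
  have h2 : ContinuousAt (fun t => 1 + w t) 1 := continuousAt_const.add h1
  have hne : (1 + w 1) ≠ 0 := by have := w_nonneg 1; positivity
  exact (continuousAt_const.div h2 hne).add (continuousAt_const.mul (h2.log hne))

theorem F_one : F 1 = 2 := by
  have : w 1 = 0 := by simp [w]
  simp [F, this]

theorem int1 : IntegrableOn (fun t => (1 - w t) ^ 2) (Ioi 1) :=
  integrableOn_Ioi_deriv_of_nonneg cont_F (fun _ hx => hasDerivAt_F hx)
    (fun _ _ => sq_nonneg _) tendsto_F

theorem val1 : ∫ t in Ioi (1 : ℝ), (1 - w t) ^ 2 = 2 * Real.log 2 - 1 := by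
  rw [integral_Ioi_of_hasDerivAt_of_nonneg cont_F (fun _ hx => hasDerivAt_F hx)
    (fun _ _ => sq_nonneg _) tendsto_F, F_one]
  ring

theorem w_zero {t : ℝ} (h : t ∈ Ioc (0 : ℝ) 1) : w t = 0 := by
  apply Real.sqrt_eq_zero_of_nonpos
  have : 1 ≤ 1 / t := by
    rw [le_div_iff₀ h.1, one_mul]
    exact h.2
  linarith

theorem int0 : IntegrableOn (fun t => (1 - w t) ^ 2) (Ioc 0 1) := by
  have : IntegrableOn (fun _ : ℝ => (1 : ℝ)) (Ioc 0 1) := by
    simp [integrableOn_const_iff]
  refine this.congr_fun ?_ measurableSet_Ioc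
  intro t ht
  simp [w_zero ht]

theorem val0 : ∫ t in Ioc (0 : ℝ) 1, (1 - w t) ^ 2 = 1 := by
  rw [setIntegral_congr_fun (g := fun _ : ℝ => (1 : ℝ)) measurableSet_Ioc
    (fun t ht => by simp [w_zero ht])]
  simp

theorem int01 : IntegrableOn (fun t => (1 - w t) ^ 2) (Ioi 0) := by
  rw [← Ioc_union_Ioi_eq_Ioi (zero_le_one' ℝ)]
  exact int0.union int1

theorem val01 : ∫ t in Ioi (0 : ℝ), (1 - w t) ^ 2 = 2 * Real.log 2 := by
  rw [← Ioc_union_Ioi_eq_Ioi (zero_le_one' ℝ),
    setIntegral_union Ioc_disjoint_Ioi_same measurableSet_Ioi int0 int1, val0, val1]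
  ring

theorem phi_sq (t : ℝ) : phi t ^ 2 = (1 - w t) ^ 2 * Real.pi⁻¹ := by
  rw [phi, div_pow, Real.sq_sqrt Real.pi_pos.le, div_eq_mul_inv]
  rfl

theorem t_A2 : S_A2 := by
  refine ⟨?_, ?_, ?_⟩
  · intro t ht
    apply div_nonneg _ (Real.sqrt_nonneg _)
    rw [sub_nonneg]
    have h1 : 1 - 1 / t ≤ 1 := by
      have : 0 ≤ 1 / t := by positivity
      linarith
    calc Real.sqrt (1 - 1 / t) ≤ Real.sqrt 1 := Real.sqrt_le_sqrt h1
      _ = 1 := Real.sqrt_one
  · unfold phi
    exact ((measurable_const.sub (Real.continuous_sqrt.measurable.comp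
      (measurable_const.sub (measurable_const.div measurable_id)))).div measurable_const)
  · intro s hs
    have hs' : 0 < s⁻¹ := inv_pos.2 hs
    have hi : IntegrableOn (fun t => phi t ^ 2) (Ioi 0) := by
      simp only [phi_sq]
      exact int01.mul_const _
    have hv : ∫ t in Ioi (0 : ℝ), phi t ^ 2 = 2 * Real.log 2 / Real.pi := by
      simp only [phi_sq]
      rw [integral_mul_const, val01]
      rfl
    constructor
    · have := (integrableOn_Ioi_comp_mul_right_iff (fun t => phi t ^ 2) 0 hs').2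
        (by rwa [zero_mul])
      simpa only [div_eq_mul_inv] using this
    · have := integral_comp_mul_right_Ioi (fun t => phi t ^ 2) 0 hs'
      rw [zero_mul, hv, inv_inv, smul_eq_mul] at this
      simpa only [div_eq_mul_inv] using this


end Pool.Agent.U460.OD
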